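import Mathlib
import Pool.Agent.H21.Sem
import Pool.Agent.H35.TwoCyc0
import Pool.Agent.H35.TwoCyc2
import Pool.Agent.H35.TwoCyc4

set_option autoImplicit false

namespace Pool.Agent.Results.MP_87e2cd_co.Full

open Pool.Agent.H35.TwoCyc

/-- `C_m ∪ C_n` is edge-magic total: `f` labels the vertices, `g` the edges (edge `i` of a cycle
joins vertex `i` to vertex `i+1` modulo its length). -/
def EMT (m n : ℕ) : Prop :=
  ∃ (f g : Fin m ⊕ Fin n → ℕ) (k : ℕ),
    Set.BijOn (Sum.elim f g) Set.univ (Set.Icc 1 (2 * (m + n))) ∧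
    (∀ i j : Fin m, j.val = (i.val + 1) % m → f (.inl i) + g (.inl i) + f (.inl j) = k) ∧
    (∀ i j : Fin n, j.val = (i.val + 1) % n → f (.inr i) + g (.inr i) + f (.inr j) = k)

lemma bij_of {α : Type} [Finite α] (f : α → ℕ) (N : ℕ) (hc : Nat.card α ≤ N)
    (hs : ∀ x, 1 ≤ x → x ≤ N → ∃ a, f a = x) :
    Nat.card α = N ∧ Set.BijOn f Set.univ (Set.Icc 1 N) := by
  classical
  let _ := Fintype.ofFinite α
  have h1 : Finset.Icc 1 N ⊆ Finset.univ.image f := by
    intro x hx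
    rw [Finset.mem_Icc] at hx
    obtain ⟨a, ha⟩ := hs x hx.1 hx.2
    exact Finset.mem_image.mpr ⟨a, Finset.mem_univ _, ha⟩
  have h2 : (Finset.univ.image f).card ≤ Fintype.card α := Finset.card_image_le
  have h3 := Finset.card_le_card h1
  rw [Nat.card_eq_fintype_card] at hc ⊢
  simp only [Nat.card_Icc, add_tsub_cancel_right] at h3
  have h4 : Finset.Icc 1 N = Finset.univ.image f :=
    Finset.eq_of_subset_of_card_le h1 (by simp only [Nat.card_Icc, add_tsub_cancel_right]; omega)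
  have h5 : Set.InjOn f (Finset.univ : Finset α) :=
    Finset.card_image_iff.mp (by rw [Finset.card_univ]; omega)
  refine ⟨by omega, fun a _ => ?_, by simpa using h5, fun x hx => ?_⟩
  · have : f a ∈ Finset.Icc 1 N := h4 ▸ Finset.mem_image_of_mem f (Finset.mem_univ a)
    simpa using this
  · obtain ⟨a, ha⟩ := hs x hx.1 hx.2
    exact ⟨a, trivial, ha⟩

lemma mk (m n : ℕ) (X Y : ℕ → ℕ) (k : ℕ) (h : Cov m n X Y k) : EMT m n := by
  obtain ⟨-, hb⟩ := bij_of (α := (Fin m ⊕ Fin n) ⊕ (Fin m ⊕ Fin n))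
    (Sum.elim (Sum.elim (fun i => X i) fun i => Y i)
      (Sum.elim (fun i => k - (X i + X ((i + 1) % m))) fun i => k - (Y i + Y ((i + 1) % n))))
    (2 * (m + n)) (by simp; omega) (by
      intro v a b
      obtain ⟨j, ⟨c, d⟩ | ⟨c, d⟩ | ⟨c, d⟩ | ⟨c, d⟩ | ⟨c, d⟩ | ⟨c, d⟩⟩ := h v a b
      · exact ⟨.inl (.inl ⟨j, c⟩), d⟩
      · refine ⟨.inr (.inl ⟨j, by omega⟩), ?_⟩
        show k - (X j + X ((j + 1) % m)) = v
        rw [Nat.mod_eq_of_lt c]; omega
      · refine ⟨.inr (.inl ⟨j, by omega⟩), ?_⟩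
        show k - (X j + X ((j + 1) % m)) = v
        rw [c, Nat.mod_self]; omega
      · exact ⟨.inl (.inr ⟨j, c⟩), d⟩
      · refine ⟨.inr (.inr ⟨j, by omega⟩), ?_⟩
        show k - (Y j + Y ((j + 1) % n)) = v
        rw [Nat.mod_eq_of_lt c]; omega
      · refine ⟨.inr (.inr ⟨j, by omega⟩), ?_⟩
        show k - (Y j + Y ((j + 1) % n)) = v
        rw [c, Nat.mod_self]; omega)
  refine ⟨_, _, k, hb, fun i j hj => ?_, fun i j hj => ?_⟩
  · have := (hb.1 (Set.mem_univ (.inr (.inl i)))).1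
    change 1 ≤ k - (X i + X ((i + 1) % m)) at this
    show X i + (k - (X i + X ((i + 1) % m))) + X j = k
    rw [hj]; omega
  · have := (hb.1 (Set.mem_univ (.inr (.inr i)))).1
    change 1 ≤ k - (Y i + Y ((i + 1) % n)) at this
    show Y i + (k - (Y i + Y ((i + 1) % n))) + Y j = k
    rw [hj]; omega

lemma EMT.swap {m n : ℕ} (h : EMT m n) : EMT n m := by
  obtain ⟨f, g, k, hb, h1, h2⟩ := h
  refine ⟨f ∘ Sum.swap, g ∘ Sum.swap, k, ?_, h2, h1⟩
  have e : Sum.elim (f ∘ Sum.swap) (g ∘ Sum.swap) =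
      Sum.elim f g ∘ (Equiv.sumCongr (Equiv.sumComm (Fin n) (Fin m)) (Equiv.sumComm (Fin n) (Fin m))) := by
    funext x; rcases x with x | x <;> rfl
  rw [e, add_comm n m]
  exact hb.comp (Equiv.bijective _).bijOn_univ

lemma of_good {m n : ℕ} (h : Pool.Agent.H21.Sem.Good m n) : EMT m n := by
  obtain ⟨f, g, k, hf, hg, rf, rg, h1, h2⟩ := h
  have hi : Function.Injective (Sum.elim f g) := by
    rintro (a | a) (b | b) hab
    · exact congrArg _ (hf hab)
    · have := rf a; have := rg b; simp at hab; omega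
    · have := rf b; have := rg a; simp at hab; omega
    · exact congrArg _ (hg hab)
  have hm : Set.MapsTo (Sum.elim f g) Set.univ (Set.Icc 1 (2 * (m + n))) := by
    rintro (a | a) -
    · have := rf a; simp; omega
    · have := rg a; simp; omega
  refine ⟨f, g, k, ⟨hm, hi.injOn, ?_⟩, fun i j hj => by have := h1 i j hj; omega,
    fun i j hj => by have := h2 i j hj; omega⟩
  have hsub : Finset.univ.image (Sum.elim f g) ⊆ Finset.Icc 1 (2 * (m + n)) := by
    intro x hx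
    obtain ⟨a, -, rfl⟩ := Finset.mem_image.mp hx
    simpa using hm (Set.mem_univ a)
  have heq := Finset.eq_of_subset_of_card_le hsub (by
    rw [Finset.card_image_of_injective _ hi]; simp; omega)
  intro x hx
  have : x ∈ Finset.univ.image (Sum.elim f g) := by rw [heq]; simpa using hx
  obtain ⟨a, -, rfl⟩ := Finset.mem_image.mp this
  exact ⟨a, trivial, rfl⟩

lemma lists (m n : ℕ) (A B : List ℕ) (k : ℕ)
    (h : ∀ v ≤ 2 * (m + n), 1 ≤ v → ∃ j < m + n, (j < m ∧ A.getD j 0 = v) ∨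
      (j + 1 < m ∧ A.getD j 0 + A.getD (j + 1) 0 + v = k) ∨
      (j + 1 = m ∧ A.getD j 0 + A.getD 0 0 + v = k) ∨ (j < n ∧ B.getD j 0 = v) ∨
      (j + 1 < n ∧ B.getD j 0 + B.getD (j + 1) 0 + v = k) ∨
      (j + 1 = n ∧ B.getD j 0 + B.getD 0 0 + v = k)) : EMT m n :=
  mk m n (fun j => A.getD j 0) (fun j => B.getD j 0) k fun v a b =>
    let ⟨j, _, hj⟩ := h v b a; ⟨j, hj⟩

def T (k a b c : ℕ) : List ℕ := [a, b, c, k - a - b, k - b - c, k - c - a]

def M (k a b c : ℕ) : ℕ :=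
  2 ^ a ||| 2 ^ b ||| 2 ^ c ||| 2 ^ (k - a - b) ||| 2 ^ (k - b - c) ||| 2 ^ (k - c - a)

def bad (m x : ℕ) : Bool := Nat.beq x 0 || Nat.ble 13 x || m.testBit x

def nd : List ℕ → Bool
  | [] => true
  | x :: r => r.all (fun y => !(Nat.beq x y)) && nd r

def force (n : ℕ) (f : ℕ → Bool) : Bool := Nat.casesOn n (f 0) fun p => f (p + 1)

def L : List ℕ := [1, 2, 3, 4, 5, 6, 7, 8, 9, 10, 11, 12]

def tri (m k : ℕ) (g : ℕ → ℕ → ℕ → Bool) : Bool :=
  L.all fun d => bad m d || L.all fun e => bad m e || bad m (k - d - e) || L.all fun f =>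
    bad m f || bad m (k - e - f) || bad m (k - f - d) || !(nd (T k d e f)) || g d e f

def chk (k : ℕ) : Bool :=
  tri 0 k fun a b c => force (M k a b c) fun m => tri m k fun _ _ _ => false

lemma key0 : ∀ k < 37, chk k = true := by decide +kernel

lemma force_eq (n : ℕ) (f : ℕ → Bool) : force n f = f n := by cases n <;> rfl

lemma nd_of (l : List ℕ) (h : l.Nodup) : nd l = true := by
  induction l with
  | nil => rfl
  | cons x r ih =>
    rw [List.nodup_cons] at h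
    simp only [nd, Bool.and_eq_true, List.all_eq_true, ih h.2, and_true]
    intro y hy
    have : x ≠ y := fun e => h.1 (e ▸ hy)
    simpa [← Bool.not_eq_true, Nat.beq_eq] using this

lemma tri_of (m k : ℕ) (g : ℕ → ℕ → ℕ → Bool) (h : tri m k g = true) (d e f : ℕ)
    (h1 : ∀ x ∈ T k d e f, 1 ≤ x ∧ x ≤ 12 ∧ m.testBit x = false) (h2 : (T k d e f).Nodup) :
    g d e f = true := by
  have hb : ∀ x ∈ T k d e f, bad m x = false := fun x hx => by
    obtain ⟨a, b, c⟩ := h1 x hx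
    simp only [bad, c, Bool.or_false, Bool.or_eq_false_iff]
    exact ⟨by simpa [← Bool.not_eq_true, Nat.beq_eq] using (by omega : x ≠ 0),
      by simpa [← Bool.not_eq_true, Nat.ble_eq] using (by omega : ¬ 13 ≤ x)⟩
  have hL : ∀ x ∈ T k d e f, x ∈ L := fun x hx => by
    obtain ⟨a, b, -⟩ := h1 x hx
    simp only [L, List.mem_cons, List.not_mem_nil, or_false]; omega
  simp only [tri, List.all_eq_true] at h
  have a := h d (hL d (by simp [T]))
  rw [hb d (by simp [T]), Bool.false_or, List.all_eq_true] at a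
  have b := a e (hL e (by simp [T]))
  rw [hb e (by simp [T]), hb (k - d - e) (by simp [T]), Bool.false_or, Bool.false_or,
    List.all_eq_true] at b
  have c := b f (hL f (by simp [T]))
  rw [hb f (by simp [T]), hb (k - e - f) (by simp [T]), hb (k - f - d) (by simp [T]),
    nd_of _ h2] at c
  simpa using c

lemma key (k : ℕ) (hk : k < 37) (a b c : ℕ)
    (h1 : ∀ x ∈ T k a b c, 1 ≤ x ∧ x ≤ 12) (h2 : (T k a b c).Nodup) (d e f : ℕ)
    (h6 : ∀ x ∈ T k d e f, 1 ≤ x ∧ x ≤ 12 ∧ x ∉ T k a b c) : ¬ (T k d e f).Nodup := by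
  intro h7
  have h := tri_of 0 k _ (key0 k hk) a b c (fun x hx => ⟨(h1 x hx).1, (h1 x hx).2, by simp⟩) h2
  rw [force_eq] at h
  refine absurd (tri_of _ k _ h d e f (fun x hx => ⟨(h6 x hx).1, (h6 x hx).2.1, ?_⟩) h7) (by simp)
  have := (h6 x hx).2.2
  simp only [T, List.mem_cons, List.not_mem_nil, or_false, not_or] at this
  simp only [M, Nat.testBit_or, Nat.testBit_two_pow, Bool.or_eq_false_iff, decide_eq_false_iff_not]
  omega

lemma not33 : ¬ EMT 3 3 := by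
  rintro ⟨f, g, k, hb, h1, h2⟩
  have r : ∀ x, 1 ≤ Sum.elim f g x ∧ Sum.elim f g x ≤ 12 := fun x => hb.1 (Set.mem_univ x)
  have hi : Function.Injective (Sum.elim f g) := Set.injOn_univ.mp hb.2.1
  have a0 := h1 0 1 rfl; have a1 := h1 1 2 rfl; have a2 := h1 2 0 rfl
  have b0 := h2 0 1 rfl; have b1 := h2 1 2 rfl; have b2 := h2 2 0 rfl
  have e1 : T k (f (.inl 0)) (f (.inl 1)) (f (.inl 2)) = List.map (Sum.elim f g)
      [.inl (.inl 0), .inl (.inl 1), .inl (.inl 2), .inr (.inl 0), .inr (.inl 1), .inr (.inl 2)] := by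
    simp only [T, List.map, Sum.elim_inl, Sum.elim_inr, List.cons.injEq, true_and, and_true]; omega
  have e2 : T k (f (.inr 0)) (f (.inr 1)) (f (.inr 2)) = List.map (Sum.elim f g)
      [.inl (.inr 0), .inl (.inr 1), .inl (.inr 2), .inr (.inr 0), .inr (.inr 1), .inr (.inr 2)] := by
    simp only [T, List.map, Sum.elim_inl, Sum.elim_inr, List.cons.injEq, true_and, and_true]; omega
  have dis : ∀ x ∈ T k (f (.inr 0)) (f (.inr 1)) (f (.inr 2)),
      1 ≤ x ∧ x ≤ 12 ∧ x ∉ T k (f (.inl 0)) (f (.inl 1)) (f (.inl 2)) := by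
    rw [e1, e2]
    intro x hx
    obtain ⟨y, hy, rfl⟩ := List.mem_map.mp hx
    refine ⟨(r y).1, (r y).2, fun hc => ?_⟩
    rw [List.mem_map_of_injective hi] at hc
    simp only [List.mem_cons, List.not_mem_nil, or_false] at hy hc
    rcases hy with rfl | rfl | rfl | rfl | rfl | rfl <;> simp at hc
  have r1 := r (.inl (.inl 0)); have r2 := r (.inl (.inl 1)); have r3 := r (.inl (.inl 2))
  have r4 := r (.inl (.inr 0)); have r5 := r (.inl (.inr 1)); have r6 := r (.inl (.inr 2))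
  have r7 := r (.inr (.inl 0))
  simp only [Sum.elim_inl, Sum.elim_inr] at r1 r2 r3 r4 r5 r6 r7
  refine key k (by omega) (f (.inl 0)) (f (.inl 1)) (f (.inl 2)) ?_ ?_ _ _ _ dis ?_
  · rw [e1]
    intro x hx
    obtain ⟨y, -, rfl⟩ := List.mem_map.mp hx
    exact r y
  · rw [e1]; exact List.Nodup.map hi (by decide)
  · rw [e2]; exact List.Nodup.map hi (by decide)

lemma EMT.congr {m n m' n' : ℕ} (h : EMT m n) (h1 : m' = m) (h2 : n' = n) : EMT m' n' :=
  h1 ▸ h2 ▸ h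

lemma big (a b : ℕ) (ha : 3 ≤ a) (hab : a ≤ b) (hb : 17 ≤ b) (hp : (a + b) % 2 = 0) : EMT a b := by
  obtain ⟨t, ht⟩ : ∃ t, a + b = 6 * t ∨ a + b = 6 * t + 2 ∨ a + b = 6 * t + 4 := ⟨(a + b) / 6, by omega⟩
  obtain ⟨s, hs⟩ : ∃ s, a = 4 * s + 4 ∨ a = 4 * s + 5 ∨ a = 4 * s + 6 ∨ a = 4 * s + 3 := ⟨(a - 3) / 4, by omega⟩
  rcases ht with ht | ht | ht <;> rcases hs with hs | hs | hs | hs
  · exact (mk _ _ _ _ _ (cov00 s (t - s) (by omega))).congr (by omega) (by omega)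
  · exact (mk _ _ _ _ _ (cov01 s (t - s) (by omega))).congr (by omega) (by omega)
  · exact (mk _ _ _ _ _ (cov02 s (t - s) (by omega))).congr (by omega) (by omega)
  · exact (mk _ _ _ _ _ (cov03 s (t - s) (by omega))).congr (by omega) (by omega)
  · exact (mk _ _ _ _ _ (cov20 s (t - s) (by omega))).congr (by omega) (by omega)
  · exact (mk _ _ _ _ _ (cov21 s (t - s) (by omega))).congr (by omega) (by omega)
  · exact (mk _ _ _ _ _ (cov22 s (t - s) (by omega))).congr (by omega) (by omega)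
  · exact (mk _ _ _ _ _ (cov23 s (t - s) (by omega))).congr (by omega) (by omega)
  · exact (mk _ _ _ _ _ (cov40 s (t - s) (by omega))).congr (by omega) (by omega)
  · exact (mk _ _ _ _ _ (cov41 s (t - s) (by omega))).congr (by omega) (by omega)
  · exact (mk _ _ _ _ _ (cov42 s (t - s) (by omega))).congr (by omega) (by omega)
  · exact (mk _ _ _ _ _ (cov43 s (t - s) (by omega))).congr (by omega) (by omega)

lemma small (a b : ℕ) (ha : 3 ≤ a) (hab : a ≤ b) (hb : b ≤ 16) (hp : (a + b) % 2 = 0)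
    (h33 : ¬ (a = 3 ∧ b = 3)) : EMT a b := by
  obtain rfl | rfl | rfl | rfl | rfl | rfl | rfl | rfl | rfl | rfl | rfl | rfl | rfl : b = 4 ∨ b = 5 ∨ b = 6 ∨ b = 7 ∨ b = 8 ∨ b = 9 ∨ b = 10 ∨ b = 11 ∨ b = 12 ∨ b = 13 ∨ b = 14 ∨ b = 15 ∨ b = 16 := by omega
  · obtain rfl : a = 4 := by omega
    exact lists 4 4 [2, 15, 1, 13] [16, 6, 7, 4] 25 (by decide +kernel)
  · obtain rfl | rfl : a = 3 ∨ a = 5 := by omega
    · exact lists 3 5 [2, 15, 9] [5, 4, 10, 12, 7] 25 (by decide +kernel)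
    · exact mk _ _ _ _ _ (cov41 0 1 (by omega))
  · obtain rfl | rfl : a = 4 ∨ a = 6 := by omega
    · exact mk _ _ _ _ _ (cov40 0 1 (by omega))
    · exact mk _ _ _ _ _ (cov02 0 2 (by omega))
  · obtain rfl | rfl | rfl : a = 3 ∨ a = 5 ∨ a = 7 := by omega
    · exact mk _ _ _ _ _ (cov43 0 1 (by omega))
    · exact mk _ _ _ _ _ (cov01 0 2 (by omega))
    · exact lists 7 7 [27, 1, 14, 26, 13, 21, 10] [2, 18, 8, 11, 7, 16, 22] 43 (by decide +kernel)
  · obtain rfl | rfl | rfl : a = 4 ∨ a = 6 ∨ a = 8 := by omega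
    · exact mk _ _ _ _ _ (cov00 0 2 (by omega))
    · exact lists 6 8 [27, 1, 14, 26, 13, 6] [5, 16, 18, 23, 12, 11, 7, 17] 43 (by decide +kernel)
    · exact mk _ _ _ _ _ (cov40 1 1 (by omega))
  · obtain rfl | rfl | rfl | rfl : a = 3 ∨ a = 5 ∨ a = 7 ∨ a = 9 := by omega
    · exact mk _ _ _ _ _ (cov03 0 2 (by omega))
    · exact mk _ _ _ _ _ (cov21 0 2 (by omega))
    · exact mk _ _ _ _ _ (cov43 1 1 (by omega))
    · exact mk _ _ _ _ _ (cov01 1 2 (by omega))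
  · obtain rfl | rfl | rfl | rfl : a = 4 ∨ a = 6 ∨ a = 8 ∨ a = 10 := by omega
    · exact lists 4 10 [27, 1, 14, 4] [2, 24, 9, 8, 13, 19, 21, 16, 20, 18] 43 (by decide +kernel)
    · exact mk _ _ _ _ _ (cov42 0 2 (by omega))
    · exact mk _ _ _ _ _ (cov00 1 2 (by omega))
    · exact lists 10 10 [40, 2, 39, 21, 37, 6, 38, 16, 36, 11] [5, 26, 4, 22, 12, 15, 13, 25, 8, 24] 61 (by decide +kernel)
  · obtain rfl | rfl | rfl | rfl | rfl : a = 3 ∨ a = 5 ∨ a = 7 ∨ a = 9 ∨ a = 11 := by omega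
    · exact mk _ _ _ _ _ (cov23 0 2 (by omega))
    · exact mk _ _ _ _ _ (cov41 0 2 (by omega))
    · exact mk _ _ _ _ _ (cov03 1 2 (by omega))
    · exact mk _ _ _ _ _ (cov21 1 2 (by omega))
    · exact mk _ _ _ _ _ (cov43 2 1 (by omega))
  · obtain rfl | rfl | rfl | rfl | rfl : a = 4 ∨ a = 6 ∨ a = 8 ∨ a = 10 ∨ a = 12 := by omega
    · exact mk _ _ _ _ _ (cov40 0 2 (by omega))
    · exact mk _ _ _ _ _ (cov02 0 3 (by omega))
    · exact lists 8 12 [40, 2, 39, 1, 37, 18, 38, 7] [36, 8, 22, 29, 4, 27, 25, 3, 26, 11, 15, 12] 61 (by decide +kernel)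
    · exact mk _ _ _ _ _ (cov42 1 2 (by omega))
    · exact mk _ _ _ _ _ (cov00 2 2 (by omega))
  · obtain rfl | rfl | rfl | rfl | rfl | rfl : a = 3 ∨ a = 5 ∨ a = 7 ∨ a = 9 ∨ a = 11 ∨ a = 13 := by omega
    · exact mk _ _ _ _ _ (cov43 0 2 (by omega))
    · exact mk _ _ _ _ _ (cov01 0 3 (by omega))
    · exact mk _ _ _ _ _ (cov23 1 2 (by omega))
    · exact mk _ _ _ _ _ (cov41 1 2 (by omega))
    · exact mk _ _ _ _ _ (cov03 2 2 (by omega))
    · exact mk _ _ _ _ _ (cov21 2 2 (by omega))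
  · obtain rfl | rfl | rfl | rfl | rfl | rfl : a = 4 ∨ a = 6 ∨ a = 8 ∨ a = 10 ∨ a = 12 ∨ a = 14 := by omega
    · exact mk _ _ _ _ _ (cov00 0 3 (by omega))
    · exact mk _ _ _ _ _ (cov22 0 3 (by omega))
    · exact mk _ _ _ _ _ (cov40 1 2 (by omega))
    · exact mk _ _ _ _ _ (cov02 1 3 (by omega))
    · exact lists 12 14 [52, 24, 51, 26, 4, 25, 6, 50, 5, 46, 21, 12] [7, 28, 42, 17, 20, 18, 16, 33, 9, 35, 30, 10, 31, 32] 78 (by decide +kernel)
    · exact mk _ _ _ _ _ (cov42 2 2 (by omega))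
  · obtain rfl | rfl | rfl | rfl | rfl | rfl | rfl : a = 3 ∨ a = 5 ∨ a = 7 ∨ a = 9 ∨ a = 11 ∨ a = 13 ∨ a = 15 := by omega
    · exact mk _ _ _ _ _ (cov03 0 3 (by omega))
    · exact mk _ _ _ _ _ (cov21 0 3 (by omega))
    · exact mk _ _ _ _ _ (cov43 1 2 (by omega))
    · exact mk _ _ _ _ _ (cov01 1 3 (by omega))
    · exact mk _ _ _ _ _ (cov23 2 2 (by omega))
    · exact mk _ _ _ _ _ (cov41 2 2 (by omega))
    · exact mk _ _ _ _ _ (cov03 3 2 (by omega))
  · obtain rfl | rfl | rfl | rfl | rfl | rfl | rfl : a = 4 ∨ a = 6 ∨ a = 8 ∨ a = 10 ∨ a = 12 ∨ a = 14 ∨ a = 16 := by omega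
    · exact mk _ _ _ _ _ (cov20 0 3 (by omega))
    · exact mk _ _ _ _ _ (cov42 0 3 (by omega))
    · exact mk _ _ _ _ _ (cov00 1 3 (by omega))
    · exact mk _ _ _ _ _ (cov22 1 3 (by omega))
    · exact mk _ _ _ _ _ (cov40 2 2 (by omega))
    · exact mk _ _ _ _ _ (cov02 2 3 (by omega))
    · exact lists 16 16 [64, 31, 3, 34, 62, 30, 61, 4, 35, 8, 33, 7, 53, 16, 22, 20] [9, 52, 26, 23, 24, 27, 25, 21, 47, 40, 43, 42, 44, 38, 41, 39] 97 (by decide +kernel)

lemma le_case (a b : ℕ) (ha : 3 ≤ a) (hab : a ≤ b) (h33 : ¬ (a = 3 ∧ b = 3)) : EMT a b := by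
  by_cases hp : (a + b) % 2 = 0
  · by_cases hb : b ≤ 16
    · exact small a b ha hab hb hp h33
    · exact big a b ha hab (by omega) hp
  by_cases s34 : a = 3 ∧ b = 4
  · exact (lists 3 4 [1, 10, 8] [14, 6, 7, 3] 22 (by decide +kernel)).congr s34.1 s34.2
  by_cases e : a % 2 = 0
  · exact of_good (Pool.Agent.H21.Sem.all a b e (by omega) ha (by omega) (by omega))
  · exact (of_good (Pool.Agent.H21.Sem.all b a (by omega) (by omega) (by omega) ha (by omega))).swap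

theorem result (m n : ℕ) (hn : 3 ≤ n) (hm : n ≤ m) : EMT m n ↔ ¬ (m = 3 ∧ n = 3) := by
  refine ⟨?_, fun h => (le_case n m hn hm (by omega)).swap⟩
  rintro h ⟨rfl, rfl⟩
  exact not33 h

end Pool.Agent.Results.MP_87e2cd_co.Full
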